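import Mathlib

/-!
Orthogonal latin rectangles viewed as packings of quadruples (row, column, symbol, symbol).
-/

set_option autoImplicit false

namespace Pool.Agent.P.MP_ef1b96_co

open Finset

variable {P P' : Type}

/-- The pair (x in coordinate k, y in coordinate l) lies in a block of `B`. -/
def Cov (B : Set (Fin 4 → P)) (k l : Fin 4) (x y : P) : Prop := ∃ p ∈ B, p k = x ∧ p l = y

/-- Two blocks agreeing in two coordinates are equal. -/
def Pack (B : Set (Fin 4 → P)) : Prop :=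
  ∀ p ∈ B, ∀ p' ∈ B, ∀ k l : Fin 4, k ≠ l → p k = p' k → p l = p' l → p = p'

/-- A pair of orthogonal latin rectangles: rows `G 0`, columns `G 1`, symbols `G 2`, `G 3`. -/
structure Des (P : Type) where
  G : Fin 4 → Finset P
  B : Set (Fin 4 → P)
  mem : ∀ p ∈ B, ∀ k, p k ∈ G k
  pack : Pack B
  cover : ∀ x ∈ G 0, ∀ y ∈ G 1, Cov B 0 1 x y

/-- The pair can be extended by one row. -/
def Des.Ext (D : Des P) : Prop :=
  ∃ T : Finset (Fin 4 → P), T.card = (D.G 1).card ∧
    (∀ p ∈ T, ∀ k, k ≠ 0 → p k ∈ D.G k) ∧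
    (∀ p ∈ T, ∀ p' ∈ T, ∀ k, k ≠ 0 → p k = p' k → p = p') ∧
    (∀ p ∈ T, ∀ k l, k ≠ 0 → l ≠ 0 → k ≠ l → ¬ Cov D.B k l (p k) (p l))

/-- `r` rows and `n` columns and symbols. -/
def Des.Size (D : Des P) (r n : ℕ) : Prop :=
  (D.G 0).card = r ∧ ∀ k, k ≠ 0 → (D.G k).card = n

/-- There is a pair of orthogonal `r × n` rectangles, which is maximal if `mx` holds. -/
def Has (mx : Prop) (r n : ℕ) : Prop :=
  ∃ (P : Type) (D : Des P), D.Size r n ∧ (mx → ¬ D.Ext)

theorem Cov.symm {B : Set (Fin 4 → P)} {k l : Fin 4} {x y : P} (h : Cov B k l x y) :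
    Cov B l k y x := by
  obtain ⟨p, hp, h1, h2⟩ := h
  exact ⟨p, hp, h2, h1⟩

/-- In an extension every point of a group `k ≠ 0` is used. -/
theorem ext_surj (D : Des P) {r n : ℕ} (hs : D.Size r n) {T : Finset (Fin 4 → P)}
    (hc : T.card = (D.G 1).card) (hm : ∀ p ∈ T, ∀ k, k ≠ 0 → p k ∈ D.G k)
    (hi : ∀ p ∈ T, ∀ p' ∈ T, ∀ k, k ≠ 0 → p k = p' k → p = p') (k : Fin 4) (hk : k ≠ 0) :
    ∀ x ∈ D.G k, ∃ p ∈ T, p k = x := by
  intro x hx
  have h := Finset.surj_on_of_inj_on_of_card_le (s := T) (t := D.G k) (fun p _ => p k)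
    (fun p hp => hm p hp k hk) (fun p p' hp hp' h => hi p hp p' hp' k hk h)
    (by rw [hc, hs.2 k hk, hs.2 1 (by decide)]) x hx
  obtain ⟨p, hp, h⟩ := h
  exact ⟨p, hp, h.symm⟩

/-- The space barrier. -/
theorem not_ext_of_barrier (D : Des P) {r n : ℕ} (hs : D.Size r n) (I : Fin 4 → Finset P)
    (hI : ∀ k, k ≠ 0 → I k ⊆ D.G k)
    (hcov : ∀ k l, k ≠ 0 → l ≠ 0 → k ≠ l → ∀ x ∈ I k, ∀ y ∈ I l, Cov D.B k l x y)
    (hcard : n < (I 1).card + (I 2).card + (I 3).card) : ¬ D.Ext := by
  classical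
  rintro ⟨T, hc, hm, hi, hu⟩
  have hge : ∀ k, k ≠ 0 → (I k).card ≤ (T.filter (fun p => p k ∈ I k)).card := by
    intro k hk
    apply Finset.card_le_card_of_surjOn (fun p => p k)
    intro x hx
    obtain ⟨p, hp, h⟩ := ext_surj D hs hc hm hi k hk x (hI k hk hx)
    refine ⟨p, ?_, h⟩
    simp only [coe_filter, Set.mem_ofPred_eq]
    exact ⟨hp, h ▸ hx⟩
  have hdis : ∀ k l, k ≠ 0 → l ≠ 0 → k ≠ l →
      Disjoint (T.filter (fun p => p k ∈ I k)) (T.filter (fun p => p l ∈ I l)) := by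
    intro k l hk hl hkl
    rw [Finset.disjoint_left]
    intro p h1 h2
    rw [mem_filter] at h1 h2
    exact hu p h1.1 k l hk hl hkl (hcov k l hk hl hkl _ h1.2 _ h2.2)
  have h12 := hdis 1 2 (by decide) (by decide) (by decide)
  have h13 := hdis 1 3 (by decide) (by decide) (by decide)
  have h23 := hdis 2 3 (by decide) (by decide) (by decide)
  have hsub : (T.filter (fun p => p 1 ∈ I 1)) ∪ (T.filter (fun p => p 2 ∈ I 2)) ∪
      (T.filter (fun p => p 3 ∈ I 3)) ⊆ T := by
    intro p hp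
    simp only [mem_union, mem_filter] at hp
    tauto
  have h := Finset.card_le_card hsub
  rw [card_union_of_disjoint (by rw [Finset.disjoint_union_left]; exact ⟨h13, h23⟩),
    card_union_of_disjoint h12, hc, hs.2 1 (by decide)] at h
  have := hge 1 (by decide)
  have := hge 2 (by decide)
  have := hge 3 (by decide)
  omega

/-- A square pair covers all pairs. -/
theorem full_of_square (D : Des P) {n : ℕ} (hs : D.Size n n) (k l : Fin 4) (hkl : k ≠ l) :
    ∀ x ∈ D.G k, ∀ y ∈ D.G l, Cov D.B k l x y := by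
  classical
  have hcard : ∀ k, (D.G k).card = n := by
    intro k
    by_cases hk : k = 0
    · rw [hk]; exact hs.1
    · exact hs.2 k hk
  choose blk hb h0 h1 using D.cover
  intro x hx y hy
  have h := Finset.surj_on_of_inj_on_of_card_le (s := D.G 0 ×ˢ D.G 1) (t := D.G k ×ˢ D.G l)
    (fun z hz => (blk z.1 (mem_product.1 hz).1 z.2 (mem_product.1 hz).2 k,
      blk z.1 (mem_product.1 hz).1 z.2 (mem_product.1 hz).2 l))
    (fun z hz => mem_product.2 ⟨D.mem _ (hb _ _ _ _) k, D.mem _ (hb _ _ _ _) l⟩)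
    (fun z z' hz hz' h => by
      have h' := D.pack _ (hb _ _ _ _) _ (hb _ _ _ _) k l hkl (congrArg Prod.fst h)
        (congrArg Prod.snd h)
      have e0 := congrFun h' 0
      have e1 := congrFun h' 1
      rw [h0, h0] at e0
      rw [h1, h1] at e1
      exact Prod.ext e0 e1)
    (by simp [card_product, hcard]) (x, y) (mem_product.2 ⟨hx, hy⟩)
  obtain ⟨z, hz, h⟩ := h
  exact ⟨_, hb _ _ _ _, (congrArg Prod.fst h).symm, (congrArg Prod.snd h).symm⟩

/-- Relabelling the points. -/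
theorem relabel (D : Des P) (G' : Fin 4 → Finset P') (hG : ∀ k, (G' k).card = (D.G k).card) :
    ∃ D' : Des P', D'.G = G' ∧ (¬ D.Ext → ¬ D'.Ext) := by
  classical
  have he : ∀ k, Nonempty (D.G k ≃ G' k) := fun k =>
    ⟨Fintype.equivOfCardEq (by simp [hG k])⟩
  let e : ∀ k, D.G k ≃ G' k := fun k => (he k).some
  let f : ∀ p ∈ D.B, Fin 4 → P' := fun p hp k => (e k ⟨p k, D.mem p hp k⟩ : P')
  have hf : ∀ p hp p' hp' k, f p hp k = f p' hp' k → p k = p' k := by
    intro p hp p' hp' k h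
    have := (e k).injective (Subtype.ext h)
    exact congrArg Subtype.val this
  refine ⟨⟨G', {q | ∃ p hp, q = f p hp}, ?_, ?_, ?_⟩, rfl, ?_⟩
  · rintro q ⟨p, hp, rfl⟩ k
    exact (e k _).2
  · rintro q ⟨p, hp, rfl⟩ q' ⟨p', hp', rfl⟩ k l hkl h1 h2
    have := D.pack p hp p' hp' k l hkl (hf p hp p' hp' k h1) (hf p hp p' hp' l h2)
    subst this
    rfl
  · intro x hx y hy
    obtain ⟨p, hp, h0, h1⟩ := D.cover _ ((e 0).symm ⟨x, hx⟩).2 _ ((e 1).symm ⟨y, hy⟩).2
    refine ⟨f p hp, ⟨p, hp, rfl⟩, ?_, ?_⟩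
    · have : (⟨p 0, D.mem p hp 0⟩ : D.G 0) = (e 0).symm ⟨x, hx⟩ := Subtype.ext h0
      simp only [f, this, Equiv.apply_symm_apply]
    · have : (⟨p 1, D.mem p hp 1⟩ : D.G 1) = (e 1).symm ⟨y, hy⟩ := Subtype.ext h1
      simp only [f, this, Equiv.apply_symm_apply]
  · rintro hD ⟨T, hc, hm, hi, hu⟩
    apply hD
    simp only at hc hm hu
    let g : ∀ q ∈ T, Fin 4 → P := fun q hq k =>
      if hk : k = 0 then ((e 1).symm ⟨q 1, hm q hq 1 (by decide)⟩ : P)
      else ((e k).symm ⟨q k, hm q hq k hk⟩ : P)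
    have hg : ∀ q hq k (hk : k ≠ 0), g q hq k = ((e k).symm ⟨q k, hm q hq k hk⟩ : P) := by
      intro q hq k hk
      simp only [g, dif_neg hk]
    have hginj : ∀ q hq q' hq' k, k ≠ 0 → g q hq k = g q' hq' k → q = q' := by
      intro q hq q' hq' k hk h
      rw [hg q hq k hk, hg q' hq' k hk] at h
      have := (e k).symm.injective (Subtype.ext h)
      exact hi q hq q' hq' k hk (congrArg Subtype.val this)
    refine ⟨T.attach.image (fun q => g q.1 q.2), ?_, ?_, ?_, ?_⟩
    · rw [card_image_of_injective, card_attach, hc, hG]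
      intro q q' h
      exact Subtype.ext (hginj _ q.2 _ q'.2 1 (by decide) (congrFun h 1))
    · intro p hp k hk
      obtain ⟨q, -, rfl⟩ := mem_image.1 hp
      rw [hg q.1 q.2 k hk]
      exact ((e k).symm _).2
    · intro p hp p' hp' k hk h
      obtain ⟨q, -, rfl⟩ := mem_image.1 hp
      obtain ⟨q', -, rfl⟩ := mem_image.1 hp'
      have : q = q' := Subtype.ext (hginj _ q.2 _ q'.2 k hk h)
      rw [this]
    · intro p hp k l hk hl hkl
      obtain ⟨q, -, rfl⟩ := mem_image.1 hp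
      rintro ⟨b, hb, h1, h2⟩
      apply hu q.1 q.2 k l hk hl hkl
      refine ⟨f b hb, ⟨b, hb, rfl⟩, ?_, ?_⟩
      · rw [hg q.1 q.2 k hk] at h1
        have : (⟨b k, D.mem b hb k⟩ : D.G k) = (e k).symm ⟨q.1 k, hm q.1 q.2 k hk⟩ :=
          Subtype.ext h1
        simp only [f, this, Equiv.apply_symm_apply]
      · rw [hg q.1 q.2 l hl] at h2
        have : (⟨b l, D.mem b hb l⟩ : D.G l) = (e l).symm ⟨q.1 l, hm q.1 q.2 l hl⟩ :=
          Subtype.ext h2
        simp only [f, this, Equiv.apply_symm_apply]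

theorem Has.relabel {mx : Prop} {r n : ℕ} (h : Has mx r n) (G' : Fin 4 → Finset P')
    (h0 : (G' 0).card = r) (h1 : ∀ k, k ≠ 0 → (G' k).card = n) :
    ∃ D' : Des P', D'.G = G' ∧ (mx → ¬ D'.Ext) := by
  obtain ⟨P, D, hs, hm⟩ := h
  obtain ⟨D', h2, h3⟩ := Pool.Agent.P.MP_ef1b96_co.relabel D G' (by
    intro k
    by_cases hk : k = 0
    · rw [hk, h0, hs.1]
    · rw [h1 k hk, hs.2 k hk])
  exact ⟨D', h2, fun h => h3 (hm h)⟩

/-- Deleting rows. -/
theorem Has.restrict {mx : Prop} {r n r' : ℕ} (h : Has mx r n) (hr : r' ≤ r) :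
    Has False r' n := by
  classical
  obtain ⟨P, D, hs, -⟩ := h
  obtain ⟨S, hS, hc⟩ := Finset.exists_subset_card_eq (s := D.G 0) (n := r') (by rw [hs.1]; exact hr)
  refine ⟨P, ⟨fun k => if k = 0 then S else D.G k, {p | p ∈ D.B ∧ p 0 ∈ S}, ?_, ?_, ?_⟩, ⟨?_, ?_⟩,
    False.elim⟩
  · rintro p ⟨hp, h0⟩ k
    by_cases hk : k = 0
    · simp only [hk, if_true]; exact h0
    · simp only [hk, if_false]; exact D.mem p hp k
  · rintro p ⟨hp, -⟩ p' ⟨hp', -⟩
    exact D.pack p hp p' hp'
  · intro x hx y hy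
    simp only [if_true] at hx
    rw [if_neg (by decide)] at hy
    obtain ⟨p, hp, h0, h1⟩ := D.cover x (hS hx) y hy
    exact ⟨p, ⟨hp, h0 ▸ hx⟩, h0, h1⟩
  · simp only [if_true]; exact hc
  · intro k hk
    simp only [hk, if_false]
    exact hs.2 k hk

/-- Direct sum of a square pair of order `r` and an `r × l` pair, `l < 2 r`. -/
theorem has_sum {r l : ℕ} (h1 : Has False r r) (h2 : Has False r l) (hl : l < 2 * r) :
    Has True r (r + l) := by
  classical
  obtain ⟨D1, hG1, -⟩ := h1.relabel (P' := ℕ) (fun _ => range r) (by simp) (by simp)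
  obtain ⟨D2, hG2, -⟩ := h2.relabel (P' := ℕ)
    (fun k => if k = 0 then range r else Ico r (r + l)) (by simp)
    (by intro k hk; simp [hk])
  have hs1 : D1.Size r r := by simp [Des.Size, hG1]
  have m1 : ∀ p ∈ D1.B, ∀ k, p k < r := by
    intro p hp k
    have := D1.mem p hp k
    rw [hG1] at this
    simpa using this
  have m20 : ∀ p ∈ D2.B, p 0 < r := by
    intro p hp
    have := D2.mem p hp 0
    rw [hG2] at this
    simpa using this
  have m2 : ∀ p ∈ D2.B, ∀ k, k ≠ 0 → r ≤ p k ∧ p k < r + l := by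
    intro p hp k hk
    have := D2.mem p hp k
    rw [hG2] at this
    simpa [hk] using this
  let D : Des ℕ := ⟨fun k => if k = 0 then range r else range (r + l), D1.B ∪ D2.B, by
      rintro p (hp | hp) k
      · have := m1 p hp k
        by_cases hk : k = 0
        · simp only [hk, if_true, mem_range]; rw [hk] at this; exact this
        · simp only [hk, if_false, mem_range]; omega
      · by_cases hk : k = 0
        · simp only [hk, if_true, mem_range]; exact m20 p hp
        · simp only [hk, if_false, mem_range]; exact (m2 p hp k hk).2, by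
      rintro p (hp | hp) p' (hp' | hp') k l hkl e1 e2
      · exact D1.pack p hp p' hp' k l hkl e1 e2
      · exfalso
        by_cases hk : k = 0
        · have hl0 : l ≠ 0 := fun h => hkl (hk.trans h.symm)
          have := m1 p hp l
          have := (m2 p' hp' l hl0).1
          omega
        · have := m1 p hp k
          have := (m2 p' hp' k hk).1
          omega
      · exfalso
        by_cases hk : k = 0
        · have hl0 : l ≠ 0 := fun h => hkl (hk.trans h.symm)
          have := m1 p' hp' l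
          have := (m2 p hp l hl0).1
          omega
        · have := m1 p' hp' k
          have := (m2 p hp k hk).1
          omega
      · exact D2.pack p hp p' hp' k l hkl e1 e2, by
      intro x hx y hy
      simp only [if_true, mem_range] at hx
      rw [if_neg (by decide), mem_range] at hy
      by_cases hyr : y < r
      · obtain ⟨p, hp, h⟩ := D1.cover x (by simp [hG1, hx]) y (by simp [hG1, hyr])
        exact ⟨p, Or.inl hp, h⟩
      · obtain ⟨p, hp, h⟩ := D2.cover x (by simp [hG2, hx]) y (by simp [hG2, hy]; omega)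
        exact ⟨p, Or.inr hp, h⟩⟩
  have hs : D.Size r (r + l) := by
    refine ⟨by simp [D], fun k hk => by simp [D, hk]⟩
  refine ⟨ℕ, D, hs, fun _ => not_ext_of_barrier D hs (fun _ => range r) ?_ ?_ ?_⟩
  · intro k hk x hx
    simp only [D, hk, if_false, mem_range] at hx ⊢
    omega
  · intro k l _ _ hkl x hx y hy
    obtain ⟨p, hp, h⟩ := full_of_square D1 hs1 k l hkl x (by simpa [hG1] using hx) y
      (by simpa [hG1] using hy)
    exact ⟨p, Or.inl hp, h⟩
  · simp only [card_range]; omega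

end Pool.Agent.P.MP_ef1b96_co
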