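import Pool.Agent.P.MP_ef1b96_co.Wilson

/-!
The finite ingredients, checked by evaluation.
-/

set_option autoImplicit false
set_option synthInstance.maxSize 2048

namespace Pool.Agent.P.MP_ef1b96_co

theorem pack_of_list (L : List (Fin 4 → ℕ))
    (h : ∀ p ∈ L, ∀ p' ∈ L, ∀ k l : Fin 4, k ≠ l → p k = p' k → p l = p' l → ∀ m, p m = p' m) :
    Pack {p | p ∈ L} :=
  fun p hp p' hp' k l hkl e1 e2 => funext (h p hp p' hp' k l hkl e1 e2)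

/-- The list form of the hole data. -/
def holeOfList (q : ℕ) (L0 L1 : List (Fin 4 → ℕ))
    (h : (∀ p ∈ L0, ∀ p' ∈ L0, ∀ k l : Fin 4, k ≠ l → p k = p' k → p l = p' l → ∀ m, p m = p' m) ∧
      (∀ p ∈ L1, ∀ p' ∈ L1, ∀ k l : Fin 4, k ≠ l → p k = p' k → p l = p' l → ∀ m, p m = p' m) ∧
      (∀ p ∈ L0, ∀ k, p k < q) ∧ (∀ p ∈ L1, ∀ k, p k < q + 1) ∧
      (∀ p ∈ L1, ∀ k l, k ≠ l → p k = q → p l ≠ q) ∧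
      (∀ a < q, ∀ b < q, ∃ p ∈ L0, p 0 = a ∧ p 1 = b) ∧
      (∀ k l : Fin 4, k ≠ l → ∀ a < q + 1, ∀ b < q + 1, ¬ (a = q ∧ b = q) →
        ∃ p ∈ L1, p k = a ∧ p l = b)) : HoleData q :=
  ⟨{p | p ∈ L0}, {p | p ∈ L1}, pack_of_list _ h.1, pack_of_list _ h.2.1, h.2.2.1, h.2.2.2.1,
    h.2.2.2.2.1, h.2.2.2.2.2.1, h.2.2.2.2.2.2⟩

/-- The list form of the barrier data. -/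
def barOfList (w : ℕ) (L0 L1 : List (Fin 4 → ℕ))
    (h : (∀ p ∈ L0, ∀ p' ∈ L0, ∀ k l : Fin 4, k ≠ l → p k = p' k → p l = p' l → ∀ m, p m = p' m) ∧
      (∀ p ∈ L1, ∀ p' ∈ L1, ∀ k l : Fin 4, k ≠ l → p k = p' k → p l = p' l → ∀ m, p m = p' m) ∧
      (∀ p ∈ L0, p 0 < w ∧ ∀ k, p k < 7) ∧ (∀ p ∈ L1, p 0 < w ∧ ∀ k, p k < 8) ∧
      (∀ p ∈ L1, ∀ k l, k ≠ l → p k = 7 → p l ≠ 7) ∧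
      (∀ a < w, ∀ b < 7, ∃ p ∈ L0, p 0 = a ∧ p 1 = b) ∧
      (∀ a < w, ∀ b < 8, ∃ p ∈ L1, p 0 = a ∧ p 1 = b) ∧
      (∀ k l : Fin 4, k ≠ 0 → l ≠ 0 → k ≠ l → ∀ a < 3, ∀ b < 3, ∃ p ∈ L0, p k = a ∧ p l = b) ∧
      (∀ k l : Fin 4, k ≠ 0 → l ≠ 0 → k ≠ l → ∀ a < 3, ∀ b < 3, ∃ p ∈ L1, p k = a ∧ p l = b)) :
    BarData w :=
  ⟨{p | p ∈ L0}, {p | p ∈ L1}, pack_of_list _ h.1, pack_of_list _ h.2.1, h.2.2.1, h.2.2.2.1,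
    h.2.2.2.2.1, h.2.2.2.2.2.1, h.2.2.2.2.2.2.1, h.2.2.2.2.2.2.2.1, h.2.2.2.2.2.2.2.2⟩

def holeA3 : List (Fin 4 → ℕ) := [
   ![0, 0, 0, 0], ![0, 1, 1, 1], ![0, 2, 2, 2], ![1, 0, 1, 2], ![1, 1, 2, 0], ![1, 2, 0, 1],
   ![2, 0, 2, 1], ![2, 1, 0, 2], ![2, 2, 1, 0]]

def holeB3 : List (Fin 4 → ℕ) := [
   ![0, 0, 3, 2], ![0, 1, 2, 3], ![0, 2, 1, 0], ![0, 3, 0, 1], ![1, 0, 2, 1], ![1, 1, 3, 0],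
   ![1, 2, 0, 3], ![1, 3, 1, 2], ![2, 0, 1, 3], ![2, 1, 0, 2], ![2, 2, 3, 1], ![2, 3, 2, 0],
   ![3, 0, 0, 0], ![3, 1, 1, 1], ![3, 2, 2, 2]]

def hole3 : HoleData 3 := holeOfList 3 holeA3 holeB3
  (by refine ⟨?_, ?_, ?_, ?_, ?_, ?_, ?_⟩ <;> decide +kernel)

def holeA4 : List (Fin 4 → ℕ) := [
   ![0, 0, 0, 0], ![0, 1, 1, 1], ![0, 2, 2, 2], ![0, 3, 3, 3], ![1, 0, 1, 2], ![1, 1, 0, 3],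
   ![1, 2, 3, 0], ![1, 3, 2, 1], ![2, 0, 2, 3], ![2, 1, 3, 2], ![2, 2, 0, 1], ![2, 3, 1, 0],
   ![3, 0, 3, 1], ![3, 1, 2, 0], ![3, 2, 1, 3], ![3, 3, 0, 2]]

def holeB4 : List (Fin 4 → ℕ) := [
   ![0, 0, 3, 2], ![0, 1, 4, 0], ![0, 2, 1, 4], ![0, 3, 2, 1], ![0, 4, 0, 3], ![1, 0, 4, 1],
   ![1, 1, 2, 3], ![1, 2, 3, 0], ![1, 3, 0, 4], ![1, 4, 1, 2], ![2, 0, 1, 3], ![2, 1, 3, 4],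
   ![2, 2, 0, 1], ![2, 3, 4, 2], ![2, 4, 2, 0], ![3, 0, 2, 4], ![3, 1, 0, 2], ![3, 2, 4, 3],
   ![3, 3, 1, 0], ![3, 4, 3, 1], ![4, 0, 0, 0], ![4, 1, 1, 1], ![4, 2, 2, 2], ![4, 3, 3, 3]]

def hole4 : HoleData 4 := holeOfList 4 holeA4 holeB4
  (by refine ⟨?_, ?_, ?_, ?_, ?_, ?_, ?_⟩ <;> decide +kernel)

def barA3 : List (Fin 4 → ℕ) := [
   ![0, 0, 0, 2], ![0, 1, 2, 1], ![0, 2, 1, 0], ![0, 3, 3, 4], ![0, 4, 4, 3], ![0, 5, 5, 6],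
   ![0, 6, 6, 5], ![1, 0, 2, 0], ![1, 1, 1, 2], ![1, 2, 0, 1], ![1, 3, 6, 3], ![1, 4, 5, 5],
   ![1, 5, 4, 4], ![1, 6, 3, 6], ![2, 0, 1, 1], ![2, 1, 0, 0], ![2, 2, 2, 2], ![2, 3, 4, 6],
   ![2, 4, 6, 4], ![2, 5, 3, 5], ![2, 6, 5, 3]]

def barB3 : List (Fin 4 → ℕ) := [
   ![0, 0, 0, 2], ![0, 1, 2, 1], ![0, 2, 1, 0], ![0, 3, 6, 5], ![0, 4, 7, 4], ![0, 5, 3, 7],
   ![0, 6, 4, 6], ![0, 7, 5, 3], ![1, 0, 2, 0], ![1, 1, 1, 2], ![1, 2, 0, 1], ![1, 3, 4, 4],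
   ![1, 4, 5, 7], ![1, 5, 7, 5], ![1, 6, 3, 3], ![1, 7, 6, 6], ![2, 0, 1, 1], ![2, 1, 0, 0],
   ![2, 2, 2, 2], ![2, 3, 7, 3], ![2, 4, 3, 6], ![2, 5, 5, 4], ![2, 6, 6, 7], ![2, 7, 4, 5]]

def bar3 : BarData 3 := barOfList 3 barA3 barB3
  (by refine ⟨?_, ?_, ?_, ?_, ?_, ?_, ?_, ?_, ?_⟩ <;> decide +kernel)

def barA4 : List (Fin 4 → ℕ) := [
   ![0, 0, 0, 0], ![0, 1, 1, 1], ![0, 2, 2, 2], ![0, 3, 3, 3], ![0, 4, 4, 4], ![0, 5, 5, 5],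
   ![0, 6, 6, 6], ![1, 0, 1, 2], ![1, 1, 0, 3], ![1, 2, 3, 0], ![1, 3, 2, 1], ![1, 4, 5, 6],
   ![1, 5, 6, 4], ![1, 6, 4, 5], ![2, 0, 2, 5], ![2, 1, 5, 2], ![2, 2, 0, 1], ![2, 3, 4, 6],
   ![2, 4, 6, 3], ![2, 5, 1, 0], ![2, 6, 3, 4], ![3, 0, 6, 1], ![3, 1, 2, 0], ![3, 2, 1, 6],
   ![3, 3, 5, 4], ![3, 4, 3, 5], ![3, 5, 4, 3], ![3, 6, 0, 2]]

def barB4 : List (Fin 4 → ℕ) := [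
   ![0, 0, 7, 3], ![0, 1, 0, 0], ![0, 2, 1, 2], ![0, 3, 6, 4], ![0, 4, 3, 5], ![0, 5, 2, 7],
   ![0, 6, 5, 6], ![0, 7, 4, 1], ![1, 0, 0, 2], ![1, 1, 1, 1], ![1, 2, 2, 0], ![1, 3, 3, 7],
   ![1, 4, 6, 6], ![1, 5, 7, 4], ![1, 6, 4, 3], ![1, 7, 5, 5], ![2, 0, 1, 0], ![2, 1, 2, 2],
   ![2, 2, 0, 1], ![2, 3, 7, 6], ![2, 4, 5, 3], ![2, 5, 4, 5], ![2, 6, 6, 7], ![2, 7, 3, 4],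
   ![3, 0, 2, 1], ![3, 1, 5, 7], ![3, 2, 3, 3], ![3, 3, 4, 0], ![3, 4, 1, 4], ![3, 5, 6, 2],
   ![3, 6, 7, 5], ![3, 7, 0, 6]]

def bar4 : BarData 4 := barOfList 4 barA4 barB4
  (by refine ⟨?_, ?_, ?_, ?_, ?_, ?_, ?_, ?_, ?_⟩ <;> decide +kernel)

def barA5 : List (Fin 4 → ℕ) := [
   ![0, 0, 5, 6], ![0, 1, 0, 0], ![0, 2, 1, 1], ![0, 3, 2, 2], ![0, 4, 6, 4], ![0, 5, 4, 3],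
   ![0, 6, 3, 5], ![1, 0, 2, 5], ![1, 1, 6, 2], ![1, 2, 4, 0], ![1, 3, 1, 4], ![1, 4, 3, 6],
   ![1, 5, 0, 1], ![1, 6, 5, 3], ![2, 0, 1, 0], ![2, 1, 2, 1], ![2, 2, 3, 2], ![2, 3, 5, 5],
   ![2, 4, 0, 3], ![2, 5, 6, 6], ![2, 6, 4, 4], ![3, 0, 6, 1], ![3, 1, 5, 4], ![3, 2, 0, 6],
   ![3, 3, 3, 3], ![3, 4, 4, 5], ![3, 5, 2, 0], ![3, 6, 1, 2], ![4, 0, 0, 2], ![4, 1, 1, 5],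
   ![4, 2, 2, 3], ![4, 3, 4, 6], ![4, 4, 5, 1], ![4, 5, 3, 4], ![4, 6, 6, 0]]

def barB5 : List (Fin 4 → ℕ) := [
   ![0, 0, 0, 0], ![0, 1, 1, 1], ![0, 2, 2, 2], ![0, 3, 3, 3], ![0, 4, 4, 4], ![0, 5, 7, 6],
   ![0, 6, 6, 7], ![0, 7, 5, 5], ![1, 0, 1, 2], ![1, 1, 0, 3], ![1, 2, 3, 0], ![1, 3, 2, 1],
   ![1, 4, 5, 6], ![1, 5, 4, 7], ![1, 6, 7, 5], ![1, 7, 6, 4], ![2, 0, 2, 3], ![2, 1, 3, 2],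
   ![2, 2, 0, 1], ![2, 3, 5, 7], ![2, 4, 7, 0], ![2, 5, 6, 5], ![2, 6, 1, 4], ![2, 7, 4, 6],
   ![3, 0, 5, 1], ![3, 1, 6, 6], ![3, 2, 7, 3], ![3, 3, 0, 5], ![3, 4, 2, 7], ![3, 5, 3, 4],
   ![3, 6, 4, 2], ![3, 7, 1, 0], ![4, 0, 4, 5], ![4, 1, 2, 0], ![4, 2, 1, 7], ![4, 3, 7, 4],
   ![4, 4, 6, 1], ![4, 5, 5, 3], ![4, 6, 3, 6], ![4, 7, 0, 2]]

def bar5 : BarData 5 := barOfList 5 barA5 barB5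
  (by refine ⟨?_, ?_, ?_, ?_, ?_, ?_, ?_, ?_, ?_⟩ <;> decide +kernel)

def barA6 : List (Fin 4 → ℕ) := [
   ![0, 0, 0, 0], ![0, 1, 3, 1], ![0, 2, 1, 3], ![0, 3, 4, 5], ![0, 4, 2, 2], ![0, 5, 6, 4],
   ![0, 6, 5, 6], ![1, 0, 4, 4], ![1, 1, 2, 3], ![1, 2, 6, 0], ![1, 3, 0, 6], ![1, 4, 5, 5],
   ![1, 5, 1, 1], ![1, 6, 3, 2], ![2, 0, 6, 5], ![2, 1, 0, 2], ![2, 2, 5, 1], ![2, 3, 1, 4],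
   ![2, 4, 3, 6], ![2, 5, 2, 0], ![2, 6, 4, 3], ![3, 0, 2, 1], ![3, 1, 6, 6], ![3, 2, 4, 2],
   ![3, 3, 3, 0], ![3, 4, 0, 4], ![3, 5, 5, 3], ![3, 6, 1, 5], ![4, 0, 1, 2], ![4, 1, 5, 4],
   ![4, 2, 2, 6], ![4, 3, 6, 3], ![4, 4, 4, 0], ![4, 5, 3, 5], ![4, 6, 0, 1], ![5, 0, 3, 3],
   ![5, 1, 1, 0], ![5, 2, 0, 5], ![5, 3, 5, 2], ![5, 4, 6, 1], ![5, 5, 4, 6], ![5, 6, 2, 4]]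

def barB6 : List (Fin 4 → ℕ) := [
   ![0, 0, 3, 4], ![0, 1, 6, 5], ![0, 2, 0, 2], ![0, 3, 7, 6], ![0, 4, 5, 7], ![0, 5, 1, 0],
   ![0, 6, 4, 1], ![0, 7, 2, 3], ![1, 0, 0, 7], ![1, 1, 2, 2], ![1, 2, 1, 3], ![1, 3, 3, 0],
   ![1, 4, 6, 1], ![1, 5, 7, 4], ![1, 6, 5, 5], ![1, 7, 4, 6], ![2, 0, 2, 0], ![2, 1, 0, 1],
   ![2, 2, 5, 4], ![2, 3, 4, 7], ![2, 4, 3, 6], ![2, 5, 6, 2], ![2, 6, 7, 3], ![2, 7, 1, 5],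
   ![3, 0, 1, 1], ![3, 1, 3, 3], ![3, 2, 7, 0], ![3, 3, 0, 5], ![3, 4, 4, 4], ![3, 5, 2, 7],
   ![3, 6, 6, 6], ![3, 7, 5, 2], ![4, 0, 7, 2], ![4, 1, 1, 6], ![4, 2, 2, 1], ![4, 3, 5, 3],
   ![4, 4, 0, 0], ![4, 5, 4, 5], ![4, 6, 3, 7], ![4, 7, 6, 4], ![5, 0, 4, 3], ![5, 1, 5, 0],
   ![5, 2, 6, 7], ![5, 3, 2, 4], ![5, 4, 7, 5], ![5, 5, 0, 6], ![5, 6, 1, 2], ![5, 7, 3, 1]]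

def bar6 : BarData 6 := barOfList 6 barA6 barB6
  (by refine ⟨?_, ?_, ?_, ?_, ?_, ?_, ?_, ?_, ?_⟩ <;> decide +kernel)

/-- All four barrier ingredients. -/
def barAll : ∀ w, w ≤ 3 → BarData (3 + w)
  | 0, _ => bar3
  | 1, _ => bar4
  | 2, _ => bar5
  | 3, _ => bar6
  | _ + 4, h => absurd h (by omega)

end Pool.Agent.P.MP_ef1b96_co
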