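import Pool.Agent.P.MP_ef1b96_co.Ingr

/-!
Existence of maximal pairs for all large orders.
-/

set_option autoImplicit false

namespace Pool.Agent.P.MP_ef1b96_co

open Finset

theorem coprime_six {t : ℕ} (h : t % 6 = 1) : Nat.Coprime 6 t := by
  unfold Nat.Coprime
  rw [Nat.gcd_rec, h]
  norm_num

theorem coprime_six' {t : ℕ} (h : t % 6 = 5) : Nat.Coprime 6 t := by
  unfold Nat.Coprime
  rw [Nat.gcd_rec, h]
  norm_num

theorem cofinite (S : ℕ → Prop) (s3 : ∀ u t, t % 6 = 1 → u ≤ t → S u → S (3 * t + u))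
    (s4 : ∀ u t, t % 6 = 1 → u ≤ t → S u → S (4 * t + u)) {u0 : ℕ} (h0 : S u0) :
    ∃ N, ∀ n, N ≤ n → S n := by
  have step : ∀ u, S u → ∃ u', S u' ∧ u' % 18 = (u + 1) % 18 := by
    intro u hu
    have h1 := s3 u (6 * u + 1) (by omega) (by omega) hu
    have h2 := s4 _ (18 * (3 * (6 * u + 1) + u) + 13) (by omega) (by omega) h1
    exact ⟨_, h2, by omega⟩
  have all : ∀ c, ∃ u, S u ∧ u % 18 = (u0 + c) % 18 := by
    intro c
    induction c with
    | zero => exact ⟨u0, h0, rfl⟩
    | succ c ih =>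
      obtain ⟨u, hu, e⟩ := ih
      obtain ⟨u', hu', e'⟩ := step u hu
      exact ⟨u', hu', by omega⟩
  choose f hf he using all
  refine ⟨4 * (range 18).sup f + 3, fun n hn => ?_⟩
  obtain ⟨c, hc, hce⟩ : ∃ c, c < 18 ∧ (u0 + c + 3) % 18 = n % 18 :=
    ⟨(n + 17 * u0 + 15) % 18, by omega, by omega⟩
  have hle : f c ≤ (range 18).sup f := Finset.le_sup (f := f) (mem_range.2 hc)
  have e := he c
  have := s3 (f c) ((n - f c) / 3) (by omega) (by omega) (hf c)
  have e2 : 3 * ((n - f c) / 3) + f c = n := by omega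
  rwa [e2] at this

theorem has_mols : ∃ K, ∀ n, K ≤ n → Has False n n := by
  apply cofinite (fun n => Has False n n) (u0 := 0)
  · intro u t ht hut h
    exact has_hole hole3 (coprime_six ht) le_rfl hut h
  · intro u t ht hut h
    exact has_hole hole4 (coprime_six ht) le_rfl hut h
  · exact ⟨ℕ, ⟨fun _ => ∅, ∅, by simp, by simp [Pack], by simp⟩, by simp [Des.Size], False.elim⟩

theorem has_fixed (d : ℕ) (hd : 1 ≤ d) : ∃ N, ∀ n, N ≤ n → d ≤ n ∧ Has True (n - d) n := by
  obtain ⟨t, ht, h1, h2⟩ : ∃ t, Nat.Coprime 6 t ∧ t ≤ d ∧ d ≤ 4 * t := by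
    by_cases h : d ≤ 4
    · exact ⟨1, by norm_num, hd, by omega⟩
    · by_cases h' : d ≤ 20
      · exact ⟨5, by norm_num, by omega, by omega⟩
      · exact ⟨6 * ((d - 1) / 6) + 1, coprime_six (by omega), by omega, by omega⟩
  apply cofinite (fun n => d ≤ n ∧ Has True (n - d) n) (u0 := 7 * t + 0)
  · rintro u t ht hut ⟨h1, h⟩
    refine ⟨by omega, ?_⟩
    have := has_hole hole3 (coprime_six ht) (Nat.sub_le _ _) hut h
    rwa [Nat.add_sub_assoc h1]
  · rintro u t ht hut ⟨h1, h⟩
    refine ⟨by omega, ?_⟩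
    have := has_hole hole4 (coprime_six ht) (Nat.sub_le _ _) hut h
    rwa [Nat.add_sub_assoc h1]
  · exact ⟨by omega, has_bar barAll ht (Nat.zero_le _) (by omega) (by omega)⟩

theorem has_all : ∃ N, ∀ n, N ≤ n → ∀ r, n < 3 * r → r < n → Has True r n := by
  obtain ⟨K, hK⟩ := has_mols
  have caseA : ∀ n r, K ≤ r → n < 3 * r → 2 * r ≤ n → Has True r n := by
    intro n r h1 h2 h3
    have := has_sum (hK r h1) ((hK (n - r) (by omega)).restrict (r' := r) (by omega)) (by omega)
    rwa [Nat.add_sub_cancel' (by omega)] at this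
  have hsmall : ∀ d, ∃ N, ∀ n, N ≤ n → 1 ≤ d → Has True (n - d) n := by
    intro d
    by_cases hd : 1 ≤ d
    · obtain ⟨N, hN⟩ := has_fixed d hd
      exact ⟨N, fun n hn _ => (hN n hn).2⟩
    · exact ⟨0, fun n _ h => absurd h hd⟩
  choose f hf using hsmall
  refine ⟨(range (2 * K + 40)).sup f + 3 * K + 3000, fun n hn r h1 h2 => ?_⟩
  by_cases hA : 2 * r ≤ n
  · exact caseA n r (by omega) h1 hA
  obtain ⟨t, ht, ht1, ht2⟩ : ∃ t, t % 6 = 1 ∧ 7 * t ≤ n ∧ n < 7 * t + 42 :=
    ⟨6 * ((n - 7) / 42) + 1, by omega, by omega, by omega⟩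
  by_cases hB : r ≤ 6 * t
  · have := has_bar barAll (coprime_six ht) (u := n - 7 * t) (r := r) (by omega) (by omega) hB
    rwa [Nat.add_sub_cancel' ht1] at this
  by_cases hD : n - r < 2 * K + 40
  · have hle : f (n - r) ≤ (range (2 * K + 40)).sup f := Finset.le_sup (f := f) (mem_range.2 hD)
    have := hf (n - r) n (by omega) (by omega)
    rwa [Nat.sub_sub_self h2.le] at this
  obtain ⟨u, hu1, hu2, hu3⟩ : ∃ u, 3 * (n - r) < 2 * u ∧ 2 * u ≤ 3 * (n - r) + 36 ∧
      (u + 3) % 18 = n % 18 := by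
    refine ⟨3 * (n - r) / 2 + 1 + (n + 17 * (3 * (n - r) / 2 + 1) + 15) % 18, ?_, ?_, ?_⟩ <;> omega
  have h3 := caseA u (u - (n - r)) (by omega) (by omega) (by omega)
  have h4 := has_hole hole3 (t := (n - u) / 3) (coprime_six (by omega)) (Nat.sub_le _ _)
    (by omega) h3
  have e1 : 3 * ((n - u) / 3) + (u - (n - r)) = r := by omega
  have e2 : 3 * ((n - u) / 3) + u = n := by omega
  rwa [e1, e2] at h4

/-- Translation to arrays. -/
theorem arrays_of_has {r n : ℕ} (h : Has True r n) :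
    ∃ A B : Fin r → Fin n → Fin n,
      (∀ i, Function.Injective (A i)) ∧
      (∀ j, Function.Injective (fun i => A i j)) ∧
      (∀ i, Function.Injective (B i)) ∧
      (∀ j, Function.Injective (fun i => B i j)) ∧
      Function.Injective (fun p : Fin r × Fin n => (A p.1 p.2, B p.1 p.2)) ∧
      ¬ ∃ a b : Fin n → Fin n,
          Function.Injective a ∧ Function.Injective b ∧
          (∀ i j, a j ≠ A i j ∧ b j ≠ B i j) ∧
          (∀ i j j', (a j, b j) ≠ (A i j', B i j')) := by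
  classical
  obtain ⟨D, hG, hD⟩ := h.relabel (P' := ℕ) (fun k => if k = 0 then range r else range n)
    (by simp) (by intro k hk; simp [hk])
  have hG0 : D.G 0 = range r := by simp [hG]
  have hG1 : ∀ k, k ≠ 0 → D.G k = range n := by intro k hk; simp [hG, hk]
  have m0 : ∀ p ∈ D.B, p 0 < r := by
    intro p hp
    have := D.mem p hp 0
    rwa [hG0, mem_range] at this
  have m1 : ∀ p ∈ D.B, ∀ k, k ≠ 0 → p k < n := by
    intro p hp k hk
    have := D.mem p hp k
    rwa [hG1 k hk, mem_range] at this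
  have hex : ∀ (i : Fin r) (j : Fin n), ∃ p ∈ D.B, p 0 = i ∧ p 1 = j := fun i j =>
    D.cover i (by simp [hG0]) j (by simp [hG1 1 (by decide)])
  choose blk hb h0 h1 using hex
  have huniq : ∀ i j i' j', blk i j = blk i' j' → i = i' ∧ j = j' := by
    intro i j i' j' e
    have e0 := congrFun e 0
    have e1 := congrFun e 1
    rw [h0, h0] at e0
    rw [h1, h1] at e1
    exact ⟨Fin.ext e0, Fin.ext e1⟩
  have hblk : ∀ p (hp : p ∈ D.B), p = blk ⟨p 0, m0 p hp⟩ ⟨p 1, m1 p hp 1 (by decide)⟩ := by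
    intro p hp
    exact D.pack p hp _ (hb _ _) 0 1 (by decide) (by rw [h0]) (by rw [h1])
  let A : Fin r → Fin n → Fin n := fun i j => ⟨blk i j 2, m1 _ (hb i j) 2 (by decide)⟩
  let B : Fin r → Fin n → Fin n := fun i j => ⟨blk i j 3, m1 _ (hb i j) 3 (by decide)⟩
  refine ⟨A, B, ?_, ?_, ?_, ?_, ?_, ?_⟩
  · intro i j j' e
    exact (huniq _ _ _ _ (D.pack _ (hb i j) _ (hb i j') 0 2 (by decide) (by rw [h0, h0])
      (congrArg Fin.val e))).2
  · intro j i i' e
    exact (huniq _ _ _ _ (D.pack _ (hb i j) _ (hb i' j) 1 2 (by decide) (by rw [h1, h1])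
      (congrArg Fin.val e))).1
  · intro i j j' e
    exact (huniq _ _ _ _ (D.pack _ (hb i j) _ (hb i j') 0 3 (by decide) (by rw [h0, h0])
      (congrArg Fin.val e))).2
  · intro j i i' e
    exact (huniq _ _ _ _ (D.pack _ (hb i j) _ (hb i' j) 1 3 (by decide) (by rw [h1, h1])
      (congrArg Fin.val e))).1
  · rintro ⟨i, j⟩ ⟨i', j'⟩ e
    have := huniq _ _ _ _ (D.pack _ (hb i j) _ (hb i' j') 2 3 (by decide)
      (congrArg Fin.val (congrArg Prod.fst e)) (congrArg Fin.val (congrArg Prod.snd e)))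
    exact Prod.ext this.1 this.2
  · rintro ⟨a, b, ha, hb', hc, hp⟩
    apply hD trivial
    let tr : Fin n → Fin 4 → ℕ := fun j => ![0, j, a j, b j]
    have c12 : ∀ j : Fin n, ¬ Cov D.B 1 2 j (a j) := by
      rintro j ⟨p, hp, e1, e2⟩
      apply (hc ⟨p 0, m0 p hp⟩ j).1
      apply Fin.ext
      have : j = ⟨p 1, m1 p hp 1 (by decide)⟩ := Fin.ext e1.symm
      rw [← e2]
      simp only [A]
      rw [this, ← hblk p hp]
    have c13 : ∀ j : Fin n, ¬ Cov D.B 1 3 j (b j) := by
      rintro j ⟨p, hp, e1, e2⟩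
      apply (hc ⟨p 0, m0 p hp⟩ j).2
      apply Fin.ext
      have : j = ⟨p 1, m1 p hp 1 (by decide)⟩ := Fin.ext e1.symm
      rw [← e2]
      simp only [B]
      rw [this, ← hblk p hp]
    have c23 : ∀ j : Fin n, ¬ Cov D.B 2 3 (a j) (b j) := by
      rintro j ⟨p, hp', e1, e2⟩
      apply hp ⟨p 0, m0 p hp'⟩ j ⟨p 1, m1 p hp' 1 (by decide)⟩
      apply Prod.ext
      · apply Fin.ext
        rw [← e1]
        simp only [A]
        rw [← hblk p hp']
      · apply Fin.ext
        rw [← e2]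
        simp only [B]
        rw [← hblk p hp']
    have hinj : ∀ j j' k, k ≠ 0 → tr j k = tr j' k → j = j' := by
      intro j j' k hk e
      fin_cases k
      · exact absurd rfl hk
      · exact Fin.ext e
      · exact ha (Fin.ext e)
      · exact hb' (Fin.ext e)
    refine ⟨univ.image tr, ?_, ?_, ?_, ?_⟩
    · rw [card_image_of_injective _ (fun j j' e => hinj j j' 1 (by decide) (congrFun e 1)),
        hG1 1 (by decide)]
      simp
    · intro p hp k hk
      obtain ⟨j, -, rfl⟩ := mem_image.1 hp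
      rw [hG1 k hk, mem_range]
      fin_cases k
      · exact absurd rfl hk
      · exact j.2
      · exact (a j).2
      · exact (b j).2
    · intro p hp p' hp' k hk e
      obtain ⟨j, -, rfl⟩ := mem_image.1 hp
      obtain ⟨j', -, rfl⟩ := mem_image.1 hp'
      rw [hinj j j' k hk e]
    · intro p hp k l hk hl hkl
      obtain ⟨j, -, rfl⟩ := mem_image.1 hp
      fin_cases k <;> fin_cases l
      all_goals first
        | exact absurd rfl hk
        | exact absurd rfl hl
        | exact absurd rfl hkl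
        | exact c12 j
        | exact c13 j
        | exact c23 j
        | exact fun h => c12 j h.symm
        | exact fun h => c13 j h.symm
        | exact fun h => c23 j h.symm

end Pool.Agent.P.MP_ef1b96_co
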