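import Pool.Agent.P.MP_ef1b96_co.Basic

/-!
A weighted form of Wilson's construction over a transversal design with five groups.
-/

set_option autoImplicit false

namespace Pool.Agent.P.MP_ef1b96_co

open Finset

/-- A transversal design with five groups on `F`, blocks indexed by `F × F`. -/
structure Master (F : Type) where
  π : Fin 4 → F × F → F
  ω : F × F → F
  hπ : ∀ k l, k ≠ l → ∀ β β', π k β = π k β' → π l β = π l β' → β = β'
  hω : ∀ k β β', π k β = π k β' → ω β = ω β' → β = β'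
  sπ : ∀ k l, k ≠ l → ∀ x y, ∃ β, π k β = x ∧ π l β = y
  sω : ∀ k x y, ∃ β, π k β = x ∧ ω β = y

theorem exists_master_of_units (F : Type) [CommRing F] [Finite F] (h2 : IsUnit (2 : F))
    (h3 : IsUnit (3 : F)) : Nonempty (Master F) := by
  let π : Fin 4 → F × F → F := fun k β => ![β.1, β.2, β.2 + β.1, β.2 + 2 * β.1] k
  let ω : F × F → F := fun β => β.2 + 3 * β.1
  have c2 : ∀ a b : F, 2 * a = 2 * b → a = b := fun a b h => h2.mul_left_cancel h
  have c3 : ∀ a b : F, 3 * a = 3 * b → a = b := fun a b h => h3.mul_left_cancel h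
  have hπ : ∀ k l, k ≠ l → ∀ β β', π k β = π k β' → π l β = π l β' → β = β' := by
    rintro k l hkl ⟨a, b⟩ ⟨a', b'⟩ e1 e2
    have key : a = a' := by
      fin_cases k <;> fin_cases l <;> simp only [π] at e1 e2 <;> simp at e1 e2 hkl <;>
        first
        | exact e1
        | exact e2
        | linear_combination e2 - e1
        | linear_combination e1 - e2
        | (apply c2; linear_combination e2 - e1)
        | (apply c2; linear_combination e1 - e2)
    subst key
    have key : b = b' := by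
      fin_cases k <;> fin_cases l <;> simp only [π] at e1 e2 <;> simp at e1 e2 hkl <;>
        first
        | exact e1
        | exact e2
    rw [key]
  have hω : ∀ k β β', π k β = π k β' → ω β = ω β' → β = β' := by
    rintro k ⟨a, b⟩ ⟨a', b'⟩ e1 e2
    have key : a = a' := by
      fin_cases k <;> simp only [π, ω] at e1 e2 <;> simp at e1 e2 <;>
        first
        | exact e1
        | linear_combination e2 - e1
        | (apply c2; linear_combination e2 - e1)
        | (apply c3; linear_combination e2 - e1)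
    subst key
    have key : b = b' := by
      simp only [ω] at e2
      linear_combination e2
    rw [key]
  refine ⟨⟨π, ω, hπ, hω, ?_, ?_⟩⟩
  · intro k l hkl x y
    have hinj : Function.Injective (fun β : F × F => (π k β, π l β)) := fun β β' h =>
      hπ k l hkl β β' (congrArg Prod.fst h) (congrArg Prod.snd h)
    obtain ⟨β, h⟩ := Finite.surjective_of_injective hinj (x, y)
    exact ⟨β, congrArg Prod.fst h, congrArg Prod.snd h⟩
  · intro k x y
    have hinj : Function.Injective (fun β : F × F => (π k β, ω β)) := fun β β' h =>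
      hω k β β' (congrArg Prod.fst h) (congrArg Prod.snd h)
    obtain ⟨β, h⟩ := Finite.surjective_of_injective hinj (x, y)
    exact ⟨β, congrArg Prod.fst h, congrArg Prod.snd h⟩

theorem exists_master (t : ℕ) [NeZero t] (ht : Nat.Coprime 6 t) : Nonempty (Master (ZMod t)) := by
  apply exists_master_of_units
  · have : Nat.Coprime 2 t := Nat.Coprime.coprime_dvd_left (by norm_num) ht
    have h := (ZMod.isUnit_iff_coprime 2 t).2 this
    simpa using h
  · have : Nat.Coprime 3 t := Nat.Coprime.coprime_dvd_left (by norm_num) ht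
    have h := (ZMod.isUnit_iff_coprime 3 t).2 this
    simpa using h

variable {F : Type}

/-- The points of the new design. -/
abbrev Pt (F : Type) : Type := (Σ _ : F, ℕ) ⊕ F

/-- The global point of the local point `x` of coordinate `k` in the master block `β`;
the local point `q` is the point at infinity. -/
def Master.φ (M : Master F) (q : ℕ) (β : F × F) (k : Fin 4) (x : ℕ) : Pt F :=
  if x = q then Sum.inr (M.ω β) else Sum.inl ⟨M.π k β, x⟩

theorem Master.φ_inf (M : Master F) (q : ℕ) (β : F × F) (k : Fin 4) :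
    M.φ q β k q = Sum.inr (M.ω β) := by simp [Master.φ]

theorem Master.φ_fin (M : Master F) {q x : ℕ} (β : F × F) (k : Fin 4) (h : x ≠ q) :
    M.φ q β k x = Sum.inl ⟨M.π k β, x⟩ := by simp [Master.φ, h]

theorem Master.φ_eq (M : Master F) {q x x' : ℕ} {β β' : F × F} {k : Fin 4}
    (h : M.φ q β k x = M.φ q β' k x') :
    x = x' ∧ (x = q → M.ω β = M.ω β') ∧ (x ≠ q → M.π k β = M.π k β') := by
  by_cases hx : x = q <;> by_cases hx' : x' = q
  · subst hx; subst hx'
    rw [M.φ_inf, M.φ_inf] at h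
    exact ⟨rfl, fun _ => Sum.inr.inj h, fun h => absurd rfl h⟩
  · subst hx
    rw [M.φ_inf, M.φ_fin _ _ hx'] at h
    cases h
  · subst hx'
    rw [M.φ_inf, M.φ_fin _ _ hx] at h
    cases h
  · rw [M.φ_fin _ _ hx, M.φ_fin _ _ hx'] at h
    have h' := Sum.inl.inj h
    simp only [Sigma.mk.injEq, heq_eq_eq] at h'
    exact ⟨h'.2, fun h => absurd h hx, fun _ => h'.1⟩

/-- The blocks of the new design. -/
def wB (M : Master F) (q : ℕ) (J : F × F → Set (Fin 4 → ℕ)) (D : Des F) : Set (Fin 4 → Pt F) :=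
  {P | (∃ β, ∃ p ∈ J β, P = fun k => M.φ q β k (p k)) ∨ ∃ d ∈ D.B, P = fun k => Sum.inr (d k)}

/-- The groups of the new design. -/
def wG [Fintype F] (W : Fin 4 → F → ℕ) (D : Des F) (k : Fin 4) : Finset (Pt F) :=
  (univ.sigma (fun g => range (W k g))).disjSum (D.G k)

theorem card_wG [Fintype F] (W : Fin 4 → F → ℕ) (D : Des F) (k : Fin 4) :
    (wG W D k).card = ∑ g, W k g + (D.G k).card := by
  simp [wG, card_disjSum, card_sigma]

theorem cov_wB (M : Master F) (q : ℕ) (J : F × F → Set (Fin 4 → ℕ)) (D : Des F) (β : F × F)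
    {k l : Fin 4} {x y : ℕ} (h : Cov (J β) k l x y) :
    Cov (wB M q J D) k l (M.φ q β k x) (M.φ q β l y) := by
  obtain ⟨p, hp, rfl, rfl⟩ := h
  exact ⟨_, Or.inl ⟨β, p, hp, rfl⟩, rfl, rfl⟩

theorem cov_wB_inr (M : Master F) (q : ℕ) (J : F × F → Set (Fin 4 → ℕ)) (D : Des F)
    {k l : Fin 4} {x y : F} (h : Cov D.B k l x y) :
    Cov (wB M q J D) k l (Sum.inr x) (Sum.inr y) := by
  obtain ⟨p, hp, rfl, rfl⟩ := h
  exact ⟨_, Or.inr ⟨p, hp, rfl⟩, rfl, rfl⟩

theorem pack_wB (M : Master F) (q : ℕ) (J : F × F → Set (Fin 4 → ℕ)) (D : Des F)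
    (Jpack : ∀ β, Pack (J β))
    (Jtwo : ∀ β, ∀ p ∈ J β, ∀ k l, k ≠ l → p k = q → p l ≠ q) : Pack (wB M q J D) := by
  have mixed : ∀ β, ∀ p ∈ J β, ∀ (d : Fin 4 → F) (k l : Fin 4), k ≠ l →
      M.φ q β k (p k) = Sum.inr (d k) → M.φ q β l (p l) = Sum.inr (d l) → False := by
    intro β p hp d k l hkl e1 e2
    by_cases h1 : p k = q
    · rw [M.φ_fin _ _ (Jtwo β p hp k l hkl h1)] at e2
      cases e2
    · rw [M.φ_fin _ _ h1] at e1
      cases e1
  rintro P (⟨β, p, hp, rfl⟩ | ⟨d, hd, rfl⟩) P' (⟨β', p', hp', rfl⟩ | ⟨d', hd', rfl⟩) k l hkl e1 e2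
  · obtain ⟨a1, a2, a3⟩ := M.φ_eq e1
    obtain ⟨b1, b2, b3⟩ := M.φ_eq e2
    have hβ : β = β' := by
      by_cases h1 : p k = q
      · exact M.hω l β β' (b3 (Jtwo β p hp k l hkl h1)) (a2 h1)
      · by_cases h2 : p l = q
        · exact M.hω k β β' (a3 h1) (b2 h2)
        · exact M.hπ k l hkl β β' (a3 h1) (b3 h2)
    subst hβ
    rw [Jpack β p hp p' hp' k l hkl a1 b1]
  · exact (mixed β p hp d' k l hkl e1 e2).elim
  · exact (mixed β' p' hp' d k l hkl e1.symm e2.symm).elim
  · rw [D.pack d hd d' hd' k l hkl (Sum.inr.inj e1) (Sum.inr.inj e2)]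

/-- `x` is an admissible local point of coordinate `k` in the master block `β`. -/
def Adm (M : Master F) (q : ℕ) (W : Fin 4 → F → ℕ) (D : Des F) (β : F × F) (k : Fin 4) (x : ℕ) :
    Prop := (x = q ∧ M.ω β ∈ D.G k) ∨ x < W k (M.π k β)

theorem cov_wB_of [Fintype F] (M : Master F) (q : ℕ) (J : F × F → Set (Fin 4 → ℕ)) (D : Des F)
    (W : Fin 4 → F → ℕ) (hW : ∀ k g, W k g ≤ q) {k l : Fin 4} (hkl : k ≠ l)
    {x y : Pt F} (hx : x ∈ wG W D k) (hy : y ∈ wG W D l)
    (hcov : ∀ β a b, Adm M q W D β k a → Adm M q W D β l b → M.φ q β k a = x → M.φ q β l b = y →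
      ¬ (a = q ∧ b = q) → Cov (J β) k l a b)
    (hD : ∀ a b, x = Sum.inr a → y = Sum.inr b → Cov D.B k l a b) :
    Cov (wB M q J D) k l x y := by
  rcases x with ⟨g, a⟩ | a <;> rcases y with ⟨g', b⟩ | b
  · simp only [wG, inl_mem_disjSum, mem_sigma, mem_univ, true_and, mem_range] at hx hy
    obtain ⟨β, rfl, rfl⟩ := M.sπ k l hkl g g'
    have ha : a ≠ q := by have := hW k (M.π k β); omega
    have hb : b ≠ q := by have := hW l (M.π l β); omega
    rw [← M.φ_fin β k ha, ← M.φ_fin β l hb]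
    exact cov_wB M q J D β (hcov β a b (Or.inr hx) (Or.inr hy) (M.φ_fin β k ha) (M.φ_fin β l hb)
      (fun h => ha h.1))
  · simp only [wG, inl_mem_disjSum, inr_mem_disjSum, mem_sigma, mem_univ, true_and,
      mem_range] at hx hy
    obtain ⟨β, rfl, rfl⟩ := M.sω k g b
    have ha : a ≠ q := by have := hW k (M.π k β); omega
    rw [← M.φ_fin β k ha, ← M.φ_inf q β l]
    exact cov_wB M q J D β (hcov β a q (Or.inr hx) (Or.inl ⟨rfl, hy⟩) (M.φ_fin β k ha)
      (M.φ_inf q β l) (fun h => ha h.1))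
  · simp only [wG, inl_mem_disjSum, inr_mem_disjSum, mem_sigma, mem_univ, true_and,
      mem_range] at hx hy
    obtain ⟨β, rfl, rfl⟩ := M.sω l g' a
    have hb : b ≠ q := by have := hW l (M.π l β); omega
    rw [← M.φ_fin β l hb, ← M.φ_inf q β k]
    exact cov_wB M q J D β (hcov β q b (Or.inl ⟨rfl, hx⟩) (Or.inr hy) (M.φ_inf q β k)
      (M.φ_fin β l hb) (fun h => hb h.2))
  · exact cov_wB_inr M q J D (hD a b rfl rfl)

/-- The weighted Wilson construction. -/
def wilson [Fintype F] (M : Master F) (q : ℕ) (J : F × F → Set (Fin 4 → ℕ)) (D : Des F)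
    (W : Fin 4 → F → ℕ) (hW : ∀ k g, W k g ≤ q) (Jpack : ∀ β, Pack (J β))
    (Jtwo : ∀ β, ∀ p ∈ J β, ∀ k l, k ≠ l → p k = q → p l ≠ q)
    (Jmem : ∀ β, ∀ p ∈ J β, ∀ k, Adm M q W D β k (p k))
    (Jcov : ∀ β a b, Adm M q W D β 0 a → Adm M q W D β 1 b → ¬ (a = q ∧ b = q) →
      Cov (J β) 0 1 a b) : Des (Pt F) where
  G := wG W D
  B := wB M q J D
  mem := by
    rintro P (⟨β, p, hp, rfl⟩ | ⟨d, hd, rfl⟩) k
    · rcases Jmem β p hp k with ⟨h1, h2⟩ | h
      · simp only [h1, M.φ_inf, wG, inr_mem_disjSum]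
        exact h2
      · have ha : p k ≠ q := by have := hW k (M.π k β); omega
        simp only [M.φ_fin β k ha, wG, inl_mem_disjSum, mem_sigma, mem_univ, true_and, mem_range]
        exact h
    · simp only [wG, inr_mem_disjSum]
      exact D.mem d hd k
  pack := pack_wB M q J D Jpack Jtwo
  cover := by
    intro x hx y hy
    apply cov_wB_of M q J D W hW (by decide) hx hy
    · intro β a b h1 h2 _ _ h3
      exact Jcov β a b h1 h2 h3
    · rintro a b rfl rfl
      simp only [wG, inr_mem_disjSum] at hx hy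
      exact D.cover a hx b hy

/-- Data for the hole construction: transversal designs of orders `q` and `q + 1`, the latter
with the block at infinity removed. -/
structure HoleData (q : ℕ) where
  T0 : Set (Fin 4 → ℕ)
  T1 : Set (Fin 4 → ℕ)
  pack0 : Pack T0
  pack1 : Pack T1
  mem0 : ∀ p ∈ T0, ∀ k, p k < q
  mem1 : ∀ p ∈ T1, ∀ k, p k < q + 1
  two : ∀ p ∈ T1, ∀ k l, k ≠ l → p k = q → p l ≠ q
  cov0 : ∀ a < q, ∀ b < q, Cov T0 0 1 a b
  cov1 : ∀ k l, k ≠ l → ∀ a < q + 1, ∀ b < q + 1, ¬ (a = q ∧ b = q) → Cov T1 k l a b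

theorem has_hole {q : ℕ} (H : HoleData q) {t : ℕ} (ht : Nat.Coprime 6 t) {mx : Prop} {v u : ℕ}
    (hvu : v ≤ u) (hut : u ≤ t) (h : Has mx v u) : Has mx (q * t + v) (q * t + u) := by
  classical
  have ht0 : t ≠ 0 := by rintro rfl; norm_num at ht
  haveI : NeZero t := ⟨ht0⟩
  obtain ⟨M⟩ := exists_master t ht
  obtain ⟨U, -, hU⟩ := Finset.exists_subset_card_eq (s := (univ : Finset (ZMod t))) (n := u)
    (by simpa [ZMod.card] using hut)
  obtain ⟨V, hVU, hV⟩ := Finset.exists_subset_card_eq (s := U) (n := v) (by omega)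
  obtain ⟨D, hG, hD⟩ := h.relabel (fun k => if k = 0 then V else U) (by simp [hV])
    (by intro k hk; simp [hk, hU])
  have hG0 : D.G 0 = V := by simp [hG]
  have hG1 : ∀ k, k ≠ 0 → D.G k = U := by intro k hk; simp [hG, hk]
  have hGU : ∀ k, D.G k ⊆ U := by
    intro k
    by_cases hk : k = 0
    · rw [hk, hG0]; exact hVU
    · rw [hG1 k hk]
  let J : ZMod t × ZMod t → Set (Fin 4 → ℕ) := fun β =>
    if M.ω β ∈ U then {p | p ∈ H.T1 ∧ (p 0 = q → M.ω β ∈ V)} else H.T0
  let W : Fin 4 → ZMod t → ℕ := fun _ _ => q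
  have Jpack : ∀ β, Pack (J β) := by
    intro β
    by_cases hβ : M.ω β ∈ U
    · simp only [J, if_pos hβ]
      intro p hp p' hp'
      exact H.pack1 p hp.1 p' hp'.1
    · simp only [J, if_neg hβ]
      exact H.pack0
  have Jtwo : ∀ β, ∀ p ∈ J β, ∀ k l, k ≠ l → p k = q → p l ≠ q := by
    intro β p hp k l hkl
    by_cases hβ : M.ω β ∈ U
    · simp only [J, if_pos hβ] at hp
      exact H.two p hp.1 k l hkl
    · simp only [J, if_neg hβ] at hp
      intro h
      have := H.mem0 p hp k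
      omega
  have Jmem : ∀ β, ∀ p ∈ J β, ∀ k, Adm M q W D β k (p k) := by
    intro β p hp k
    by_cases hβ : M.ω β ∈ U
    · simp only [J, if_pos hβ] at hp
      by_cases h : p k = q
      · left
        refine ⟨h, ?_⟩
        by_cases hk : k = 0
        · subst hk; rw [hG0]; exact hp.2 h
        · rw [hG1 k hk]; exact hβ
      · right
        have := H.mem1 p hp.1 k
        simp only [W]; omega
    · simp only [J, if_neg hβ] at hp
      exact Or.inr (H.mem0 p hp k)
  have adm : ∀ β k a, Adm M q W D β k a → a < q + 1 := by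
    rintro β k a (h | h)
    · omega
    · simp only [W] at h; omega
  have Jcov : ∀ β a b, Adm M q W D β 0 a → Adm M q W D β 1 b → ¬ (a = q ∧ b = q) →
      Cov (J β) 0 1 a b := by
    intro β a b ha hb hab
    by_cases hβ : M.ω β ∈ U
    · simp only [J, if_pos hβ]
      obtain ⟨p, hp, h0, h1⟩ := H.cov1 0 1 (by decide) a (adm _ _ _ ha) b (adm _ _ _ hb) hab
      refine ⟨p, ⟨hp, fun h => ?_⟩, h0, h1⟩
      rcases ha with ha | ha
      · rw [← hG0]; exact ha.2
      · simp only [W] at ha; omega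
    · simp only [J, if_neg hβ]
      apply H.cov0
      · rcases ha with ha | ha
        · exact absurd (hGU _ ha.2) hβ
        · exact ha
      · rcases hb with hb | hb
        · exact absurd (hGU _ hb.2) hβ
        · exact hb
  let D' := wilson M q J D W (fun _ _ => le_rfl) Jpack Jtwo Jmem Jcov
  have hs : D'.Size (q * t + v) (q * t + u) := by
    refine ⟨?_, fun k hk => ?_⟩
    · simp [D', wilson, card_wG, W, hG0, hV, ZMod.card, mul_comm]
    · simp [D', wilson, card_wG, W, hG1 k hk, hU, ZMod.card, mul_comm]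
  refine ⟨_, D', hs, fun hmx => ?_⟩
  rintro ⟨T, hc, hm, hi, hu⟩
  apply hD hmx
  -- a triple of the extension that meets the hole lies inside it
  have key : ∀ P ∈ T, ∀ k l, k ≠ 0 → l ≠ 0 → ∀ y, P k = Sum.inr y → ∃ z, P l = Sum.inr z := by
    intro P hP k l hk hl y hy
    by_cases hkl : k = l
    · exact ⟨y, hkl ▸ hy⟩
    cases hz : P l with
    | inr z => exact ⟨z, rfl⟩
    | inl z =>
      exfalso
      apply hu P hP k l hk hl hkl
      apply cov_wB_of M q J D W (fun _ _ => le_rfl) hkl (hm P hP k hk) (hm P hP l hl)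
      · intro β a b ha hb e1 e2 hab
        have haq : a = q := by
          by_contra h
          rw [M.φ_fin β k h, hy] at e1
          cases e1
        have hβ : M.ω β ∈ U := by
          rcases ha with ha | ha
          · exact hGU _ ha.2
          · simp only [W] at ha; omega
        simp only [J, if_pos hβ]
        obtain ⟨p, hp, h0, h1⟩ := H.cov1 k l hkl a (adm _ _ _ ha) b (adm _ _ _ hb) hab
        refine ⟨p, ⟨hp, fun h => ?_⟩, h0, h1⟩
        exact absurd (h0.trans haq) (H.two p hp 0 k (Ne.symm hk) h)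
      · intro a b _ e
        rw [hz] at e
        cases e
  let pr : Pt (ZMod t) → ZMod t := Sum.elim (fun _ => 0) id
  let T' := T.filter (fun P => ∃ y, P 1 = Sum.inr y)
  have hT' : ∀ P ∈ T', ∀ k, k ≠ 0 → P k = Sum.inr (pr (P k)) := by
    intro P hP k hk
    obtain ⟨hP, y, hy⟩ := mem_filter.1 hP
    obtain ⟨z, hz⟩ := key P hP 1 k (by decide) hk y hy
    rw [hz]; rfl
  have hinj : ∀ P ∈ T', ∀ P' ∈ T', ∀ k, k ≠ 0 → pr (P k) = pr (P' k) → P = P' := by
    intro P hP P' hP' k hk e
    apply hi P (mem_filter.1 hP).1 P' (mem_filter.1 hP').1 k hk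
    rw [hT' P hP k hk, hT' P' hP' k hk, e]
  have hmem : ∀ P ∈ T', ∀ k, k ≠ 0 → pr (P k) ∈ D.G k := by
    intro P hP k hk
    have := hm P (mem_filter.1 hP).1 k hk
    rw [hT' P hP k hk] at this
    simpa only [D', wilson, wG, inr_mem_disjSum] using this
  refine ⟨T'.image (fun P k => pr (P k)), ?_, ?_, ?_, ?_⟩
  · rw [card_image_of_injOn]
    · apply Finset.card_bij (fun P _ => pr (P 1))
      · intro P hP; exact hmem P hP 1 (by decide)
      · intro P hP P' hP' e; exact hinj P hP P' hP' 1 (by decide) e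
      · intro y hy
        obtain ⟨P, hP, e⟩ := ext_surj D' hs hc hm hi 1 (by decide) (Sum.inr y)
          (by simpa only [D', wilson, wG, inr_mem_disjSum] using hy)
        refine ⟨P, mem_filter.2 ⟨hP, y, e⟩, ?_⟩
        rw [e]; rfl
    · intro P hP P' hP' e
      exact hinj P hP P' hP' 1 (by decide) (congrFun e 1)
  · intro p hp k hk
    obtain ⟨P, hP, rfl⟩ := mem_image.1 hp
    exact hmem P hP k hk
  · intro p hp p' hp' k hk e
    obtain ⟨P, hP, rfl⟩ := mem_image.1 hp
    obtain ⟨P', hP', rfl⟩ := mem_image.1 hp'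
    rw [hinj P hP P' hP' k hk e]
  · intro p hp k l hk hl hkl hcov
    obtain ⟨P, hP, rfl⟩ := mem_image.1 hp
    apply hu P (mem_filter.1 hP).1 k l hk hl hkl
    rw [hT' P hP k hk, hT' P hP l hl]
    exact cov_wB_inr M q J D hcov

/-- Data for the barrier construction: `w` rows on seven points and on seven points and a point
at infinity, covering all pairs of symbols below three. -/
structure BarData (w : ℕ) where
  T0 : Set (Fin 4 → ℕ)
  T1 : Set (Fin 4 → ℕ)
  pack0 : Pack T0
  pack1 : Pack T1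
  mem0 : ∀ p ∈ T0, p 0 < w ∧ ∀ k, p k < 7
  mem1 : ∀ p ∈ T1, p 0 < w ∧ ∀ k, p k < 8
  two : ∀ p ∈ T1, ∀ k l, k ≠ l → p k = 7 → p l ≠ 7
  cov0 : ∀ a < w, ∀ b < 7, Cov T0 0 1 a b
  cov1 : ∀ a < w, ∀ b < 8, Cov T1 0 1 a b
  bar0 : ∀ k l, k ≠ 0 → l ≠ 0 → k ≠ l → ∀ a < 3, ∀ b < 3, Cov T0 k l a b
  bar1 : ∀ k l, k ≠ 0 → l ≠ 0 → k ≠ l → ∀ a < 3, ∀ b < 3, Cov T1 k l a b

theorem exists_weights (ι : Type) [Fintype ι] (s : ℕ) (hs : s ≤ 3 * Fintype.card ι) :
    ∃ w : ι → ℕ, (∀ g, w g ≤ 3) ∧ ∑ g, w g = s := by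
  classical
  induction s with
  | zero => exact ⟨fun _ => 0, by simp, by simp⟩
  | succ s ih =>
    obtain ⟨w, h1, h2⟩ := ih (by omega)
    have : ∃ g, w g < 3 := by
      by_contra hc
      push Not at hc
      have : ∑ _g : ι, 3 ≤ ∑ g, w g := Finset.sum_le_sum (fun g _ => hc g)
      simp at this
      omega
    obtain ⟨g, hg⟩ := this
    refine ⟨fun x => w x + if x = g then 1 else 0, fun x => ?_, ?_⟩
    · by_cases hx : x = g
      · simp only [hx, if_true]; omega
      · simp only [hx, if_false]; exact h1 x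
    · simp [Finset.sum_add_distrib, h2]

theorem has_bar (H : ∀ w, w ≤ 3 → BarData (3 + w)) {t : ℕ} (ht : Nat.Coprime 6 t) {r u : ℕ}
    (hut : u ≤ t) (h1 : 3 * t ≤ r) (h2 : r ≤ 6 * t) : Has True r (7 * t + u) := by
  classical
  have ht0 : t ≠ 0 := by rintro rfl; norm_num at ht
  haveI : NeZero t := ⟨ht0⟩
  obtain ⟨M⟩ := exists_master t ht
  obtain ⟨U, -, hU⟩ := Finset.exists_subset_card_eq (s := (univ : Finset (ZMod t))) (n := u)
    (by simpa [ZMod.card] using hut)
  obtain ⟨w, hw, hsum⟩ := exists_weights (ZMod t) (r - 3 * t) (by rw [ZMod.card]; omega)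
  let D : Des (ZMod t) := ⟨fun k => if k = 0 then ∅ else U, ∅, by simp, by simp [Pack], by simp⟩
  have hG0 : D.G 0 = ∅ := by simp [D]
  have hG1 : ∀ k, k ≠ 0 → D.G k = U := by intro k hk; simp [D, hk]
  let J : ZMod t × ZMod t → Set (Fin 4 → ℕ) := fun β =>
    if M.ω β ∈ U then (H _ (hw (M.π 0 β))).T1 else (H _ (hw (M.π 0 β))).T0
  let W : Fin 4 → ZMod t → ℕ := fun k g => if k = 0 then 3 + w g else 7
  have hW0 : ∀ g, W 0 g = 3 + w g := by intro g; simp [W]
  have hW1 : ∀ k, k ≠ 0 → ∀ g, W k g = 7 := by intro k hk g; simp [W, hk]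
  have hW : ∀ k g, W k g ≤ 7 := by
    intro k g
    by_cases hk : k = 0
    · rw [hk, hW0]; have := hw g; omega
    · rw [hW1 k hk]
  have Jpack : ∀ β, Pack (J β) := by
    intro β
    by_cases hβ : M.ω β ∈ U
    · simp only [J, if_pos hβ]; exact BarData.pack1 _
    · simp only [J, if_neg hβ]; exact BarData.pack0 _
  have Jtwo : ∀ β, ∀ p ∈ J β, ∀ k l, k ≠ l → p k = 7 → p l ≠ 7 := by
    intro β p hp k l hkl
    by_cases hβ : M.ω β ∈ U
    · simp only [J, if_pos hβ] at hp
      exact BarData.two _ p hp k l hkl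
    · simp only [J, if_neg hβ] at hp
      intro h
      have := (BarData.mem0 _ p hp).2 k
      omega
  have Jmem : ∀ β, ∀ p ∈ J β, ∀ k, Adm M 7 W D β k (p k) := by
    intro β p hp k
    by_cases hβ : M.ω β ∈ U
    · simp only [J, if_pos hβ] at hp
      obtain ⟨a1, a2⟩ := BarData.mem1 _ p hp
      by_cases hk : k = 0
      · subst hk; right; rw [hW0]; exact a1
      · by_cases h : p k = 7
        · left; exact ⟨h, by rw [hG1 k hk]; exact hβ⟩
        · right; rw [hW1 k hk]; have := a2 k; omega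
    · simp only [J, if_neg hβ] at hp
      obtain ⟨a1, a2⟩ := BarData.mem0 _ p hp
      right
      by_cases hk : k = 0
      · subst hk; rw [hW0]; exact a1
      · rw [hW1 k hk]; exact a2 k
  have Jcov : ∀ β a b, Adm M 7 W D β 0 a → Adm M 7 W D β 1 b → ¬ (a = 7 ∧ b = 7) →
      Cov (J β) 0 1 a b := by
    intro β a b ha hb hab
    have ha' : a < 3 + w (M.π 0 β) := by
      rcases ha with ha | ha
      · rw [hG0] at ha; simp at ha
      · rw [hW0] at ha; exact ha
    by_cases hβ : M.ω β ∈ U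
    · simp only [J, if_pos hβ]
      apply BarData.cov1 _ a ha'
      rcases hb with hb | hb
      · omega
      · rw [hW1 1 (by decide)] at hb; omega
    · simp only [J, if_neg hβ]
      apply BarData.cov0 _ a ha'
      rcases hb with hb | hb
      · rw [hG1 1 (by decide)] at hb; exact absurd hb.2 hβ
      · rw [hW1 1 (by decide)] at hb; exact hb
  let D' := wilson M 7 J D W hW Jpack Jtwo Jmem Jcov
  have hs : D'.Size r (7 * t + u) := by
    refine ⟨?_, fun k hk => ?_⟩
    · simp only [D', wilson, card_wG, hG0, hW0, Finset.sum_add_distrib, hsum]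
      simp [ZMod.card]
      omega
    · simp [D', wilson, card_wG, hW1 k hk, hG1 k hk, hU, ZMod.card, mul_comm]
  let I : Finset (Pt (ZMod t)) := (univ.sigma (fun _ => range 3)).disjSum ∅
  have hI : I.card = 3 * t := by simp [I, card_disjSum, card_sigma, ZMod.card, mul_comm]
  have hIG : ∀ k, k ≠ 0 → I ⊆ D'.G k := by
    intro k hk x hx
    rcases x with ⟨g, a⟩ | a
    · simp only [I, D', wilson, wG, inl_mem_disjSum, mem_sigma, mem_univ, true_and,
        mem_range] at hx ⊢
      rw [hW1 k hk]; omega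
    · simp [I] at hx
  refine ⟨_, D', hs, fun _ => not_ext_of_barrier D' hs (fun _ => I) hIG ?_ ?_⟩
  · intro k l hk hl hkl x hx y hy
    apply cov_wB_of M 7 J D W hW hkl (hIG k hk hx) (hIG l hl hy)
    · intro β a b ha hb e1 e2 _
      have h3 : ∀ k a x, x ∈ I → M.φ 7 β k a = x → a < 3 := by
        intro k a x hx e
        by_cases h : a = 7
        · subst h
          rw [M.φ_inf] at e
          subst e
          simp [I] at hx
        · rw [M.φ_fin _ _ h] at e
          subst e
          simpa [I] using hx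
      by_cases hβ : M.ω β ∈ U
      · simp only [J, if_pos hβ]
        exact BarData.bar1 _ k l hk hl hkl a (h3 _ _ _ hx e1) b (h3 _ _ _ hy e2)
      · simp only [J, if_neg hβ]
        exact BarData.bar0 _ k l hk hl hkl a (h3 _ _ _ hx e1) b (h3 _ _ _ hy e2)
    · rintro a b rfl _
      simp [I] at hx
  · simp only [hI]; omega

end Pool.Agent.P.MP_ef1b96_co
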